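import Pool.Agent.Helper74.HG.GoalsC

/-!
# Project HG, part 2: packet FIN (finite residue fields)
-/

set_option autoImplicit false

namespace Pool.Agent.Helper40.HG.FIN

open Pool.Agent.Helper74.HG

/-- `ℤ` is a Jacobson ring. -/
theorem jac_int : IsJacobsonRing ℤ := by
  rw [isJacobsonRing_iff_prime_eq]
  intro P hP
  by_cases h : P = ⊥
  · subst h
    rw [eq_bot_iff]
    intro x hx
    rw [Ideal.mem_jacobson_bot] at hx
    have h1 := hx x
    rw [Int.isUnit_iff] at h1
    rw [Ideal.mem_bot]
    rcases h1 with h1 | h1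
    · have : x * x = 0 := by linarith
      exact mul_self_eq_zero.mp this
    · nlinarith [mul_self_nonneg x]
  · have : P.IsMaximal := hP.isMaximal h
    exact Ideal.jacobson_eq_self_of_isMaximal

/-- a field of finite type over `ℤ` is finite -/
theorem finite_of_ft (F : Type) [Field F] [Algebra.FiniteType ℤ F] : Finite F := by
  have := jac_int
  have hfin : Module.Finite ℤ F := finite_of_finite_type_of_isJacobsonRing ℤ F
  have hint : Algebra.IsIntegral ℤ F := inferInstance
  obtain ⟨p, hp⟩ := CharP.exists F
  rcases eq_or_ne p 0 with h0 | h0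
  · exfalso
    subst h0
    have : CharZero F := CharP.charP_to_charZero F
    have hinj : Function.Injective (algebraMap ℤ F) := by
      intro a b hab
      simpa using hab
    exact Int.not_isField
      (isField_of_isIntegral_of_isField hinj (Field.toIsField F))
  · have : NeZero p := ⟨h0⟩
    have : Fact p.Prime := ⟨(CharP.char_is_prime_or_zero F p).resolve_right h0⟩
    let _ : Algebra (ZMod p) F := ZMod.algebra F p
    have : Module.Finite (ZMod p) F := Module.Finite.of_restrictScalars_finite ℤ (ZMod p) F
    exact Module.finite_of_finite (ZMod p)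

theorem fin_of_surj (A F : Type) [CommRing A] [Algebra.FiniteType ℤ A] [Field F] (f : A →+* F)
    (hf : Function.Surjective f) : Finite F := by
  have : Algebra.FiniteType ℤ F := Algebra.FiniteType.of_surjective f.toIntAlgHom hf
  exact finite_of_ft F

theorem ft (s : Finset ℂ) : Algebra.FiniteType ℤ (Rg s) := by
  have h1 : Algebra.FiniteType ℤ (Algebra.adjoin ℤ (s : Set ℂ)) :=
    (Subalgebra.fg_iff_finiteType _).mp (Subalgebra.fg_adjoin_finset s)
  have h2 : (Algebra.adjoin ℤ (s : Set ℂ)).toSubring = Rg s := by
    rw [Algebra.adjoin_int]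
    rfl
  have e : (Algebra.adjoin ℤ (s : Set ℂ)) ≃+* Rg s :=
    RingEquiv.subringCongr h2
  exact h1.equiv { e with commutes' := fun r => by simp }

theorem t : Pool.Agent.Helper74.HG.FIN := by
  intro s
  have := ft s
  obtain ⟨m, hm⟩ := Ideal.exists_maximal (Rg s)
  let _ : Field (Rg s ⧸ m) := Ideal.Quotient.field m
  exact ⟨Rg s ⧸ m, inferInstance,
    fin_of_surj (Rg s) (Rg s ⧸ m) (Ideal.Quotient.mk m) Ideal.Quotient.mk_surjective,
    ⟨Ideal.Quotient.mk m⟩⟩

end Pool.Agent.Helper40.HG.FIN
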