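import Pool.Agent.Helper74.HG.GoalsG
import Pool.Agent.Helper58.HG.ZPI

/-!
# Project HG part 3, packet ZPIG: products in separate variables, global version
-/

namespace Pool.Agent.Helper40.HG.ZPIG

open MvPolynomial Pool.Agent.Helper74.HG

open Pool.Agent.Helper58.HG.ZPI (tt_ne_zero tt_zero one_ne eqv)

theorem cnt_one (E : Type) [Field E] (τ : Type) [IsEmpty τ] (m : ℕ) :
    cntG E (1 : MvPolynomial τ E) m = if m = 0 then 1 else 0 := by
  unfold cntG JetG
  split_ifs with h
  · subst h
    have : {x : τ → Tr E 0 | tt E 0 * aeval x (1 : MvPolynomial τ E) = 0 ∧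
        aeval x (1 : MvPolynomial τ E) ≠ 0} = {fun i => isEmptyElim i} := by
      ext x
      simp only [Set.mem_ofPred_eq, Set.mem_singleton_iff]
      constructor
      · intro _
        funext i
        exact isEmptyElim i
      · intro _
        refine ⟨?_, ?_⟩
        · rw [tt_zero, zero_mul]
        · rw [map_one]
          exact one_ne E 0
    rw [this, Set.ncard_singleton]
  · have : {x : τ → Tr E m | tt E m * aeval x (1 : MvPolynomial τ E) = 0 ∧
        aeval x (1 : MvPolynomial τ E) ≠ 0} = ∅ := by
      rw [Set.eq_empty_iff_forall_notMem]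
      rintro x ⟨h2, -⟩
      rw [map_one, mul_one] at h2
      exact tt_ne_zero E (Nat.one_le_iff_ne_zero.2 h) h2
    rw [this, Set.ncard_empty]

theorem isZ_one (τ : Type) [Fintype τ] [IsEmpty τ] : IsZG (1 : MvPolynomial τ ℂ) 1 := by
  refine ⟨∅, 1, [(1, [])], ?_, ?_, ?_, ?_⟩
  · rw [map_one]
  · intro S hS d hd
    rw [List.mem_singleton] at hS
    subst hS
    simp at hd
  · intro K _ _ ψ
    refine ⟨[(fun _ => 1, (1, []))], by simp, ?_, ?_⟩
    · intro T hT
      rw [List.mem_singleton] at hT
      subst hT
      exact ⟨1, fun _ => 1, fun _ => 1, fun _ => one_ne_zero, fun e _ => by simp, by simp⟩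
    · intro E _ _ _ m
      rw [map_one, map_one, cnt_one, Fintype.card_eq_zero, zero_mul, pow_zero, div_one]
      simp only [List.map_cons, List.map_nil, List.prod_nil, mul_one, List.sum_cons,
        List.sum_nil, add_zero, map_one]
      rw [PowerSeries.coeff_one]
      split_ifs <;> simp
  · simp [ratS]

/-- **ZPIG.** -/
theorem t (hp : ZPRG) (hi : ZISG) : ZPIG := by
  intro σ hσ ι hι
  refine Fintype.induction_empty_option (P := fun ι inst => ∀ (f : ι → MvPolynomial σ ℂ)
    (Z : ι → RatFunc ℂ), (∀ i, IsZG (f i) (Z i)) →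
      IsZG (∏ i, rename (fun x => (i, x)) (f i)) (∏ i, Z i)) ?_ ?_ ?_ ι
  · intro α β _ e ih f Z h
    letI : Fintype α := Fintype.ofEquiv β e.symm
    have h1 := ih (fun a => f (e a)) (fun a => Z (e a)) (fun a => h (e a))
    have h2 := hi (renameEquiv ℂ (e.prodCongr (Equiv.refl σ))) _ _ h1
    have e1 : (∏ a, Z (e a)) = ∏ b, Z b := Equiv.prod_comp e Z
    have e2 : renameEquiv ℂ (e.prodCongr (Equiv.refl σ))
        (∏ a, rename (fun x => (a, x)) (f (e a))) = ∏ b, rename (fun x => (b, x)) (f b) := by
      rw [map_prod, ← Equiv.prod_comp e (fun b => rename (fun x => (b, x)) (f b))]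
      apply Finset.prod_congr rfl
      intro a _
      rw [renameEquiv_apply, rename_rename]
      rfl
    rw [e1, e2] at h2
    exact h2
  · intro f Z _
    rw [Finset.univ_eq_empty, Finset.prod_empty, Finset.prod_empty]
    exact isZ_one _
  · intro α _ ih f Z h
    have h1 := ih (fun a => f (some a)) (fun a => Z (some a)) (fun a => h (some a))
    have h2 := hp _ _ _ _ h1 (h none)
    have h3 := hi (renameEquiv ℂ (eqv α σ)) _ _ h2
    rw [Fintype.prod_option, Fintype.prod_option, mul_comm (Z none), mul_comm (rename _ (f none))]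
    have e2 : renameEquiv ℂ (eqv α σ)
        (rename Sum.inl (∏ a, rename (fun x => (a, x)) (f (some a))) *
          rename Sum.inr (f none)) =
        (∏ a, rename (fun x => (some a, x)) (f (some a))) * rename (fun x => (none, x)) (f none) := by
      rw [map_mul, map_prod, map_prod, renameEquiv_apply, rename_rename]
      congr 1
      apply Finset.prod_congr rfl
      intro a _
      rw [renameEquiv_apply, rename_rename, rename_rename]
      rfl
    rw [e2] at h3
    exact h3

end Pool.Agent.Helper40.HG.ZPIG
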